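import Pool.Agent.H92.Fourteen.Half

set_option autoImplicit false

namespace Pool.Agent.Results.MP_fa5b42_co.RhombusTriangleRealizeFourteen

open Pool.Agent.H77.Loz
open Pool.Agent.H92.Fourteen

/-- the Euclidean plane -/
abbrev Plane := EuclideanSpace ℝ (Fin 2)

/-- A polygon: a compact set with nonempty interior whose boundary is a simple closed polygonal
curve, with vertices `v 0, v 1, ..., v (n-1)` in cyclic order: the vertices are distinct and two
different edges meet at most in a common end point of two consecutive edges. -/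
def IsPolygon (P : Set Plane) : Prop :=
  IsCompact P ∧ (interior P).Nonempty ∧
  ∃ (n : ℕ) (v : ZMod n → Plane), 3 ≤ n ∧ Function.Injective v ∧
    frontier P = ⋃ i, segment ℝ (v i) (v (i + 1)) ∧
    ∀ i j x, i ≠ j → x ∈ segment ℝ (v i) (v (i + 1)) → x ∈ segment ℝ (v j) (v (j + 1)) →
      (j = i + 1 ∧ x = v j) ∨ (i = j + 1 ∧ x = v i)

/-- `T` is a monohedral tiling of the plane with prototile `P` -/
structure IsMonohedralTiling (P : Set Plane) (T : Set (Set Plane)) : Prop where
  countable : T.Countable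
  closed : ∀ A ∈ T, IsClosed A
  covers : ⋃₀ T = Set.univ
  disjoint : ∀ A ∈ T, ∀ B ∈ T, A ≠ B → Disjoint (interior A) (interior B)
  congruent : ∀ A ∈ T, ∃ g : Plane ≃ᵢ Plane, A = g '' P

/-- `G` is the symmetry group of `T`: it consists of all isometries of the plane which map every
tile of `T` onto a tile of `T` -/
def IsSymmetryGroup (G : Subgroup (Plane ≃ᵢ Plane)) (T : Set (Set Plane)) : Prop :=
  ∀ g : Plane ≃ᵢ Plane, g ∈ G ↔ ∀ A ∈ T, g '' A ∈ T

/-- A wallpaper group: a group of isometries of the plane which contains two linearly independent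
translations, is cocompact (the images of a bounded set cover the plane), is properly discontinuous
(only finitely many elements move a given bounded set to a set which meets it) and has discrete
orbits (for every point `p` there is `δ > 0` such that every element which moves `p` moves it by at
least `δ`). -/
structure IsWallpaperGroup (G : Subgroup (Plane ≃ᵢ Plane)) : Prop where
  translations : ∃ u v : Plane, LinearIndependent ℝ ![u, v] ∧
    (∃ g ∈ G, ∀ x, g x = x + u) ∧ (∃ g ∈ G, ∀ x, g x = x + v)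
  cocompact : ∃ B : Set Plane, Bornology.IsBounded B ∧ ∀ x, ∃ g ∈ G, x ∈ g '' B
  proper : ∀ K : Set Plane, Bornology.IsBounded K →
    {g : Plane ≃ᵢ Plane | g ∈ G ∧ (g '' K ∩ K).Nonempty}.Finite
  discrete : ∀ p : Plane, ∃ δ : ℝ, 0 < δ ∧ ∀ g ∈ G, g p ≠ p → δ ≤ dist p (g p)

/-- the polygon `P` realizes the type (isomorphism class) of the group `W` -/
def Realizes (P : Set Plane) (W : Subgroup (Plane ≃ᵢ Plane)) : Prop :=
  ∃ (T : Set (Set Plane)) (G : Subgroup (Plane ≃ᵢ Plane)),
    IsMonohedralTiling P T ∧ IsSymmetryGroup G T ∧ Nonempty (G ≃* W)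

/-- similarity of sets -/
def Similar (A B : Set Plane) : Prop :=
  ∃ (r : ℝ) (f : Plane → Plane), 0 < r ∧ (∀ x y, dist (f x) (f y) = r * dist x y) ∧ f '' A = B

/-- the triangle with vertices `(0,0)`, `(1,0)`, `(0,√3)`, with angles 90, 60 and 30 degrees -/
noncomputable def triangle306090 : Set Plane :=
  convexHull ℝ {!₂[(0 : ℝ), 0], !₂[1, 0], !₂[0, √3]}

/-- the rhombus with vertices `(0,0)`, `(1,0)`, `(3/2, √3/2)`, `(1/2, √3/2)`: all sides are equal to
one and the angles are 60 and 120 degrees -/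
noncomputable def rhombus : Set Plane :=
  convexHull ℝ {!₂[(0 : ℝ), 0], !₂[1, 0], !₂[3 / 2, √3 / 2], !₂[1 / 2, √3 / 2]}

/-- the triangle with vertices `(0,0)`, `(3/2, √3/2)`, `(1/2, √3/2)`: its sides are `√3`, `1`, `1`
and its angles are 30, 30 and 120 degrees. It is one half of the rhombus, cut along the long
diagonal. -/
noncomputable def triangle303012 : Set Plane :=
  convexHull ℝ {!₂[(0 : ℝ), 0], !₂[3 / 2, √3 / 2], !₂[1 / 2, √3 / 2]}

/-! ### The rhombus is the prototile -/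

private theorem rhombus_eq : rhombus = P0 := by
  have e0 : (!₂[(0 : ℝ), 0] : Plane) = mk 0 0 := by
    apply ext' <;> simp [ca, cb]
  have e1 : (!₂[(1 : ℝ), 0] : Plane) = mk 1 0 := by
    apply ext' <;> simp [ca, cb]
  have e2 : (!₂[(3 / 2 : ℝ), √3 / 2] : Plane) = mk 1 1 := by
    ext i
    fin_cases i
    · simp
      norm_num
    · simp
  have e3 : (!₂[(1 / 2 : ℝ), √3 / 2] : Plane) = mk 0 1 := by
    ext i
    fin_cases i
    · simp
    · simp
  unfold rhombus
  rw [e0, e1, e2, e3]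
  apply Set.Subset.antisymm
  · apply convexHull_min _ convex_P0
    intro x hx
    simp only [Set.mem_insert_iff, Set.mem_singleton_iff] at hx
    rcases hx with rfl | rfl | rfl | rfl <;> rw [mem_P0] <;> simp
  · intro x hx
    rw [mem_P0] at hx
    obtain ⟨⟨a0, a1⟩, b0, b1⟩ := hx
    have hc : Convex ℝ (convexHull ℝ {mk 0 0, mk 1 0, mk 1 1, mk 0 1} : Set Plane) :=
      convex_convexHull ℝ _
    have m0 : mk 0 0 ∈ (convexHull ℝ {mk 0 0, mk 1 0, mk 1 1, mk 0 1} : Set Plane) :=
      subset_convexHull ℝ _ (by simp)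
    have m1 : mk 1 0 ∈ (convexHull ℝ {mk 0 0, mk 1 0, mk 1 1, mk 0 1} : Set Plane) :=
      subset_convexHull ℝ _ (by simp)
    have m2 : mk 1 1 ∈ (convexHull ℝ {mk 0 0, mk 1 0, mk 1 1, mk 0 1} : Set Plane) :=
      subset_convexHull ℝ _ (by simp)
    have m3 : mk 0 1 ∈ (convexHull ℝ {mk 0 0, mk 1 0, mk 1 1, mk 0 1} : Set Plane) :=
      subset_convexHull ℝ _ (by simp)
    have n0 : mk (ca x) 0 ∈ (convexHull ℝ {mk 0 0, mk 1 0, mk 1 1, mk 0 1} : Set Plane) :=
      hc.segment_subset m0 m1 (mem_segment_mk (r := ca x) _ a0 a1 (by simp) (by simp))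
    have n1 : mk (ca x) 1 ∈ (convexHull ℝ {mk 0 0, mk 1 0, mk 1 1, mk 0 1} : Set Plane) :=
      hc.segment_subset m3 m2 (mem_segment_mk (r := ca x) _ a0 a1 (by simp) (by simp))
    exact hc.segment_subset n0 n1 (mem_segment_mk (r := cb x) _ b0 b1 (by ring) (by ring))

/-! ### The rhombus is a polygon -/

private theorem seg_iff {a b c d : ℝ} (x : E) :
    x ∈ segment ℝ (mk a b) (mk c d) ↔
      ∃ r : ℝ, 0 ≤ r ∧ r ≤ 1 ∧ ca x = (1 - r) * a + r * c ∧ cb x = (1 - r) * b + r * d := by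
  constructor
  · rintro ⟨s, r, hs, hr, hsr, rfl⟩
    refine ⟨r, hr, by linarith, ?_, ?_⟩
    · rw [ca_add, ca_smul, ca_smul, ca_mk, ca_mk]
      rw [show s = 1 - r by linarith]
    · rw [cb_add, cb_smul, cb_smul, cb_mk, cb_mk]
      rw [show s = 1 - r by linarith]
  · rintro ⟨r, h0, h1, ha, hb⟩
    exact mem_segment_mk x h0 h1 ha hb

private theorem frontier_iff (x : E) : x ∈ frontier P0 ↔
    ((0 ≤ ca x ∧ ca x ≤ 1) ∧ (0 ≤ cb x ∧ cb x ≤ 1)) ∧ (ca x = 0 ∨ ca x = 1 ∨ cb x = 0 ∨ cb x = 1) := by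
  rw [frontier, isClosed_P0.closure_eq]
  constructor
  · rintro ⟨hx, hn⟩
    rw [mem_P0] at hx
    refine ⟨hx, ?_⟩
    by_contra hc
    push Not at hc
    obtain ⟨c1, c2, c3, c4⟩ := hc
    exact hn (mem_interior_P0 (lt_of_le_of_ne hx.1.1 (Ne.symm c1)) (lt_of_le_of_ne hx.1.2 c2)
      (lt_of_le_of_ne hx.2.1 (Ne.symm c3)) (lt_of_le_of_ne hx.2.2 c4))
  · rintro ⟨hx, hb⟩
    refine ⟨mem_P0.2 hx, ?_⟩
    intro hi
    have h := interior_tile (x := 1) (y := 1) hi
    obtain ⟨h1, h2, _⟩ := h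
    have h1' := h1 (by norm_num)
    have h2' := h2 (by norm_num)
    rw [abs_lt] at h1' h2'
    push_cast at h1' h2'
    rcases hb with hb | hb | hb | hb <;> linarith [h1'.1, h1'.2, h2'.1, h2'.2]

private noncomputable def vv : ZMod 4 → Plane := (![mk 0 0, mk 1 0, mk 1 1, mk 0 1] : Fin 4 → Plane)

private theorem vv0 : vv 0 = mk 0 0 := rfl
private theorem vv1 : vv 1 = mk 1 0 := rfl
private theorem vv2 : vv 2 = mk 1 1 := rfl
private theorem vv3 : vv 3 = mk 0 1 := rfl

private theorem z4 (i : ZMod 4) : i = 0 ∨ i = 1 ∨ i = 2 ∨ i = 3 := by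
  revert i
  decide

private theorem edge0 (x : E) : x ∈ segment ℝ (vv 0) (vv (0 + 1)) ↔
    cb x = 0 ∧ 0 ≤ ca x ∧ ca x ≤ 1 := by
  rw [show (0 : ZMod 4) + 1 = 1 by decide, vv0, vv1, seg_iff]
  constructor
  · rintro ⟨r, h0, h1, h2, h3⟩
    refine ⟨by linarith, by linarith, by linarith⟩
  · rintro ⟨h1, h2, h3⟩
    exact ⟨ca x, h2, h3, by linarith, by linarith⟩
private theorem edge1 (x : E) : x ∈ segment ℝ (vv 1) (vv (1 + 1)) ↔
    ca x = 1 ∧ 0 ≤ cb x ∧ cb x ≤ 1 := by
  rw [show (1 : ZMod 4) + 1 = 2 by decide, vv1, vv2, seg_iff]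
  constructor
  · rintro ⟨r, h0, h1, h2, h3⟩
    refine ⟨by linarith, by linarith, by linarith⟩
  · rintro ⟨h1, h2, h3⟩
    exact ⟨cb x, h2, h3, by linarith, by linarith⟩
private theorem edge2 (x : E) : x ∈ segment ℝ (vv 2) (vv (2 + 1)) ↔
    cb x = 1 ∧ 0 ≤ ca x ∧ ca x ≤ 1 := by
  rw [show (2 : ZMod 4) + 1 = 3 by decide, vv2, vv3, seg_iff]
  constructor
  · rintro ⟨r, h0, h1, h2, h3⟩
    refine ⟨by linarith, by linarith, by linarith⟩
  · rintro ⟨h1, h2, h3⟩
    exact ⟨1 - ca x, by linarith, by linarith, by linarith, by linarith⟩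
private theorem edge3 (x : E) : x ∈ segment ℝ (vv 3) (vv (3 + 1)) ↔
    ca x = 0 ∧ 0 ≤ cb x ∧ cb x ≤ 1 := by
  rw [show (3 : ZMod 4) + 1 = 0 by decide, vv3, vv0, seg_iff]
  constructor
  · rintro ⟨r, h0, h1, h2, h3⟩
    refine ⟨by linarith, by linarith, by linarith⟩
  · rintro ⟨h1, h2, h3⟩
    exact ⟨1 - cb x, by linarith, by linarith, by linarith, by linarith⟩

private theorem polygon_P0 : IsPolygon P0 := by
  refine ⟨Metric.isCompact_of_isClosed_isBounded isClosed_P0 bounded_P0,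
    ⟨mk (1 / 2) (1 / 2), mem_interior_P0 (by simp) (by norm_num) (by simp) (by norm_num)⟩,
    4, vv, by norm_num, ?_, ?_, ?_⟩
  · intro i j hij
    rcases z4 i with rfl | rfl | rfl | rfl <;> rcases z4 j with rfl | rfl | rfl | rfl <;>
      first
      | rfl
      | (exfalso
         rw [vv0] at hij
         first
         | rw [vv1] at hij
           exact absurd hij (mk_ne (by norm_num))
         | rw [vv2] at hij
           exact absurd hij (mk_ne (by norm_num))
         | rw [vv3] at hij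
           exact absurd hij (mk_ne (by norm_num)))
      | (exfalso
         rw [vv1] at hij
         first
         | rw [vv2] at hij
           exact absurd hij (mk_ne (by norm_num))
         | rw [vv3] at hij
           exact absurd hij (mk_ne (by norm_num)))
      | (exfalso
         rw [vv2, vv3] at hij
         exact absurd hij (mk_ne (by norm_num)))
  · ext x
    rw [frontier_iff, Set.mem_iUnion]
    constructor
    · rintro ⟨⟨⟨a0, a1⟩, b0, b1⟩, h | h | h | h⟩
      · exact ⟨3, (edge3 x).2 ⟨h, b0, b1⟩⟩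
      · exact ⟨1, (edge1 x).2 ⟨h, b0, b1⟩⟩
      · exact ⟨0, (edge0 x).2 ⟨h, a0, a1⟩⟩
      · exact ⟨2, (edge2 x).2 ⟨h, a0, a1⟩⟩
    · rintro ⟨i, hi⟩
      rcases z4 i with rfl | rfl | rfl | rfl
      · obtain ⟨h1, h2, h3⟩ := (edge0 x).1 hi
        exact ⟨⟨⟨h2, h3⟩, by rw [h1], by rw [h1]; norm_num⟩, Or.inr (Or.inr (Or.inl h1))⟩
      · obtain ⟨h1, h2, h3⟩ := (edge1 x).1 hi
        exact ⟨⟨⟨by rw [h1]; norm_num, by rw [h1]⟩, h2, h3⟩, Or.inr (Or.inl h1)⟩
      · obtain ⟨h1, h2, h3⟩ := (edge2 x).1 hi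
        exact ⟨⟨⟨h2, h3⟩, by rw [h1]; norm_num, by rw [h1]⟩, Or.inr (Or.inr (Or.inr h1))⟩
      · obtain ⟨h1, h2, h3⟩ := (edge3 x).1 hi
        exact ⟨⟨⟨by rw [h1], by rw [h1]; norm_num⟩, h2, h3⟩, Or.inl h1⟩
  · intro i j x hij hi hj
    have hv : ∀ p q : ℝ, ca x = p → cb x = q → x = mk p q := by
      intro p q h1 h2
      exact ext' (by simp [h1]) (by simp [h2])
    rcases z4 i with rfl | rfl | rfl | rfl <;> rcases z4 j with rfl | rfl | rfl | rfl
    · exact absurd rfl hij
    · obtain ⟨h1, _, _⟩ := (edge0 x).1 hi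
      obtain ⟨h2, _, _⟩ := (edge1 x).1 hj
      exact Or.inl ⟨by decide, hv 1 0 h2 h1⟩
    · obtain ⟨h1, _, _⟩ := (edge0 x).1 hi
      obtain ⟨h2, _, _⟩ := (edge2 x).1 hj
      exfalso; linarith
    · obtain ⟨h1, _, _⟩ := (edge0 x).1 hi
      obtain ⟨h2, _, _⟩ := (edge3 x).1 hj
      exact Or.inr ⟨by decide, hv 0 0 h2 h1⟩
    · obtain ⟨h1, _, _⟩ := (edge1 x).1 hi
      obtain ⟨h2, _, _⟩ := (edge0 x).1 hj
      exact Or.inr ⟨by decide, hv 1 0 h1 h2⟩
    · exact absurd rfl hij
    · obtain ⟨h1, _, _⟩ := (edge1 x).1 hi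
      obtain ⟨h2, _, _⟩ := (edge2 x).1 hj
      exact Or.inl ⟨by decide, hv 1 1 h1 h2⟩
    · obtain ⟨h1, _, _⟩ := (edge1 x).1 hi
      obtain ⟨h2, _, _⟩ := (edge3 x).1 hj
      exfalso; linarith
    · obtain ⟨h1, _, _⟩ := (edge2 x).1 hi
      obtain ⟨h2, _, _⟩ := (edge0 x).1 hj
      exfalso; linarith
    · obtain ⟨h1, _, _⟩ := (edge2 x).1 hi
      obtain ⟨h2, _, _⟩ := (edge1 x).1 hj
      exact Or.inr ⟨by decide, hv 1 1 h2 h1⟩
    · exact absurd rfl hij
    · obtain ⟨h1, _, _⟩ := (edge2 x).1 hi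
      obtain ⟨h2, _, _⟩ := (edge3 x).1 hj
      exact Or.inl ⟨by decide, hv 0 1 h2 h1⟩
    · obtain ⟨h1, _, _⟩ := (edge3 x).1 hi
      obtain ⟨h2, _, _⟩ := (edge0 x).1 hj
      exact Or.inl ⟨by decide, hv 0 0 h1 h2⟩
    · obtain ⟨h1, _, _⟩ := (edge3 x).1 hi
      obtain ⟨h2, _, _⟩ := (edge1 x).1 hj
      exfalso; linarith
    · obtain ⟨h1, _, _⟩ := (edge3 x).1 hi
      obtain ⟨h2, _, _⟩ := (edge2 x).1 hj
      exact Or.inr ⟨by decide, hv 0 1 h1 h2⟩
    · exact absurd rfl hij

/-! ### The rhombus is not similar to the triangle -/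

private theorem not_similar : ¬ Similar P0 triangle306090 := by
  rintro ⟨r, f, hr, hf, him⟩
  have hiso : Isometry (fun x => r⁻¹ • f x) := by
    apply Isometry.of_dist_eq
    intro x y
    rw [dist_smul₀, hf, Real.norm_eq_abs, abs_of_pos (inv_pos.2 hr)]
    field_simp
  have hfin : Function.Injective f := by
    intro x y hxy
    have h := hf x y
    rw [hxy, dist_self] at h
    have : dist x y = 0 := by
      rcases mul_eq_zero.1 h.symm with h | h
      · exact absurd h hr.ne'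
      · exact h
    exact dist_eq_zero.1 this
  set g := hiso.affineIsometryOfStrictConvexSpace with hg
  have hfg : ∀ x, f x = r • g x := by
    intro x
    have : g x = r⁻¹ • f x := rfl
    rw [this, smul_smul, mul_inv_cancel₀ hr.ne', one_smul]
  set F : Plane →ᵃ[ℝ] Plane := r • g.toAffineMap with hF
  have hFf : (F : Plane → Plane) = f := by
    ext1 x
    rw [hfg x]
    rfl
  obtain ⟨a, ha, ea⟩ : (!₂[(0 : ℝ), 0] : Plane) ∈ f '' P0 := by
    rw [him]
    exact subset_convexHull ℝ _ (by simp)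
  obtain ⟨b, hb, eb⟩ : (!₂[(1 : ℝ), 0] : Plane) ∈ f '' P0 := by
    rw [him]
    exact subset_convexHull ℝ _ (by simp)
  obtain ⟨c, hc, ec⟩ : (!₂[(0 : ℝ), √3] : Plane) ∈ f '' P0 := by
    rw [him]
    exact subset_convexHull ℝ _ (by simp)
  apply P0_not_triangle a b c
  have h1 : f '' (convexHull ℝ {a, b, c}) = f '' P0 := by
    rw [him, ← hFf, AffineMap.image_convexHull, hFf, Set.image_insert_eq, Set.image_insert_eq,
      Set.image_singleton, ea, eb, ec]
    rfl
  exact (hfin.image_injective h1).symm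

/-! ### The tilings -/

private theorem tiling_ok (i : Fin 14) : IsMonohedralTiling P0 (Tiling (taus i)) where
  countable := by
    have : Tiling (taus i) = Set.range
        (fun p : ℤ × ℤ => tile (cenx (taus i) p.1 p.2) (ceny (taus i) p.1 p.2)) := by
      ext A
      constructor
      · rintro ⟨u, v, rfl⟩
        exact ⟨(u, v), rfl⟩
      · rintro ⟨⟨u, v⟩, rfl⟩
        exact ⟨u, v, rfl⟩
    rw [this]
    exact Set.countable_range _
  closed := by
    intro A hA
    obtain ⟨g, rfl⟩ := tiling_congruent _ A hA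
    exact (g.toHomeomorph.isClosed_image).2 isClosed_P0
  covers := tiling_cover (good_taus i)
  disjoint := fun A hA B hB h => tiling_disjoint (good_taus i) hA hB h
  congruent := tiling_congruent _

private theorem closure_int {A : Set Plane} (i : Fin 14) (hA : A ∈ Tiling (taus i)) :
    closure (interior A) = A := by
  obtain ⟨g, rfl⟩ := tiling_congruent _ A hA
  have h0 : closure (interior P0) = P0 := by
    rw [convex_P0.closure_interior_eq_closure_of_nonempty_interior
      ⟨mk (1 / 2) (1 / 2), mem_interior_P0 (by simp) (by norm_num) (by simp) (by norm_num)⟩]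
    exact isClosed_P0.closure_eq
  have h1 : interior (g '' P0) = g '' interior P0 := (g.toHomeomorph.image_interior P0).symm
  have h2 : closure (g '' interior P0) = g '' closure (interior P0) :=
    (g.toHomeomorph.image_closure _).symm
  rw [h1, h2, h0]

private theorem symm_ok (i : Fin 14) : IsSymmetryGroup (SymG (taus i)) (Tiling (taus i)) := by
  intro g
  constructor
  · intro hg A hA
    have hg' : (fun A : Set E => (⇑g) '' A) '' (Tiling (taus i)) = Tiling (taus i) := hg
    rw [← hg']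
    exact ⟨A, hA, rfl⟩
  · intro h
    change (fun A : Set E => (⇑g) '' A) '' (Tiling (taus i)) = Tiling (taus i)
    apply Set.Subset.antisymm
    · rintro _ ⟨A, hA, rfl⟩
      exact h A hA
    · intro B hB
      -- an interior point of `B`
      have hne : (interior B).Nonempty := by
        obtain ⟨k, rfl⟩ := tiling_congruent _ B hB
        have h1 : interior (k '' P0) = k '' interior P0 := (k.toHomeomorph.image_interior P0).symm
        rw [h1]
        exact Set.Nonempty.image _ ⟨mk (1 / 2) (1 / 2),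
          mem_interior_P0 (by simp) (by norm_num) (by simp) (by norm_num)⟩
      obtain ⟨y, hy⟩ := hne
      have hx : g.symm y ∈ ⋃₀ Tiling (taus i) := by
        rw [tiling_cover (good_taus i)]
        trivial
      obtain ⟨A, hA, hxA⟩ := hx
      refine ⟨A, hA, ?_⟩
      by_contra hne
      have hgA := h A hA
      have hd := tiling_disjoint (good_taus i) hgA hB hne
      have hyA : y ∈ closure (interior (g '' A)) := by
        rw [closure_int i hgA]
        exact ⟨g.symm y, hxA, g.apply_symm_apply y⟩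
      rw [mem_closure_iff] at hyA
      obtain ⟨z, hz1, hz2⟩ := hyA _ isOpen_interior hy
      exact Set.disjoint_left.1 hd hz2 hz1

/-! ### The symmetry groups are wallpaper groups -/

private theorem tr_mem (i : Fin 14) (m n : ℤ) : isoOf 0 (168 * m) (168 * n) ∈ SymG (taus i) := by
  obtain ⟨h1, h2⟩ := trans_taus i
  have k1 : ∀ m : ℤ, isoOf 0 (168 * m) 0 ∈ SymG (taus i) := by
    intro m
    have e : ∀ m : ℤ, isoOf 0 (168 * m) 0 = (isoOf 0 168 0) ^ m := by
      intro m
      induction m using Int.induction_on with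
      | zero => rw [zpow_zero, mul_zero, isoOf_one]
      | succ a ih =>
        rw [zpow_add_one, ← ih, isoOf_mul, isoOf_inj]
        refine ⟨by decide, ?_, ?_⟩ <;> simp [A11, A12, A21, A22]
        ring
      | pred a ih =>
        rw [zpow_sub_one, ← ih, isoOf_inv, isoOf_mul, isoOf_inj]
        refine ⟨by decide, ?_, ?_⟩ <;> simp [A11, A12, A21, A22, invs, invt, invk]
        ring
    rw [e]
    exact (SymG (taus i)).zpow_mem h1 m
  have k2 : ∀ m : ℤ, isoOf 0 0 (168 * m) ∈ SymG (taus i) := by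
    intro m
    have e : ∀ m : ℤ, isoOf 0 0 (168 * m) = (isoOf 0 0 168) ^ m := by
      intro m
      induction m using Int.induction_on with
      | zero => rw [zpow_zero, mul_zero, isoOf_one]
      | succ a ih =>
        rw [zpow_add_one, ← ih, isoOf_mul, isoOf_inj]
        refine ⟨by decide, ?_, ?_⟩ <;> simp [A11, A12, A21, A22]
        ring
      | pred a ih =>
        rw [zpow_sub_one, ← ih, isoOf_inv, isoOf_mul, isoOf_inj]
        refine ⟨by decide, ?_, ?_⟩ <;> simp [A11, A12, A21, A22, invs, invt, invk]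
        ring
    rw [e]
    exact (SymG (taus i)).zpow_mem h2 m
  have e3 : isoOf 0 (168 * m) (168 * n) = isoOf 0 (168 * m) 0 * isoOf 0 0 (168 * n) := by
    rw [isoOf_mul, isoOf_inj]
    refine ⟨by decide, ?_, ?_⟩ <;> simp [A11, A12, A21, A22]
  rw [e3]
  exact (SymG (taus i)).mul_mem (k1 m) (k2 n)

private theorem bdd_box {K : Set Plane} (hK : Bornology.IsBounded K) :
    ∃ R : ℤ, ∀ p ∈ K, |ca p| ≤ R ∧ |cb p| ≤ R := by
  have h1 : Bornology.IsBounded (closure K) := hK.closure
  have hc : IsCompact (closure K) := Metric.isCompact_of_isClosed_isBounded isClosed_closure h1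
  obtain ⟨A, hA⟩ := hc.exists_bound_of_continuousOn continuous_ca.continuousOn
  obtain ⟨B, hB⟩ := hc.exists_bound_of_continuousOn continuous_cb.continuousOn
  obtain ⟨R, hR⟩ := exists_nat_ge (max A B)
  refine ⟨R, fun p hp => ?_⟩
  have h2 := hA p (subset_closure hp)
  have h3 := hB p (subset_closure hp)
  rw [Real.norm_eq_abs] at h2 h3
  push_cast
  exact ⟨h2.trans ((le_max_left _ _).trans hR), h3.trans ((le_max_right _ _).trans hR)⟩

private theorem proper_ok (i : Fin 14) (K : Set Plane) (hK : Bornology.IsBounded K) :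
    {g : Plane ≃ᵢ Plane | g ∈ SymG (taus i) ∧ (g '' K ∩ K).Nonempty}.Finite := by
  obtain ⟨R, hR⟩ := bdd_box hK
  have hfin : ((fun q : Fin 12 × ℤ × ℤ => isoOf q.1 q.2.1 q.2.2) ''
      (Set.univ ×ˢ (Set.Icc (-(3 * R)) (3 * R) ×ˢ Set.Icc (-(3 * R)) (3 * R)))).Finite := by
    apply Set.Finite.image
    exact Set.finite_univ.prod ((Set.finite_Icc _ _).prod (Set.finite_Icc _ _))
  refine hfin.subset ?_
  rintro g ⟨hg, y, ⟨x, hx, rfl⟩, hy⟩
  obtain ⟨k, s, t, rfl⟩ := sym_isoOf hg
  refine ⟨(k, s, t), ?_, rfl⟩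
  obtain ⟨x1, x2⟩ := hR _ hx
  obtain ⟨y1, y2⟩ := hR _ hy
  rw [isoOf_apply, ca_actF] at y1
  rw [isoOf_apply, cb_actF] at y2
  have hA : ∀ k : Fin 12, |A11 k| ≤ 1 ∧ |A12 k| ≤ 1 ∧ |A21 k| ≤ 1 ∧ |A22 k| ≤ 1 := by decide
  obtain ⟨a1, a2, a3, a4⟩ := hA k
  have b : ∀ (a : ℤ) (r : ℝ), |a| ≤ 1 → |r| ≤ R → |(a : ℝ) * r| ≤ R := by
    intro a r ha hr
    rw [abs_mul]
    have : |(a : ℝ)| ≤ 1 := by exact_mod_cast ha
    calc |(a : ℝ)| * |r| ≤ 1 * |r| := by gcongr
      _ ≤ R := by linarith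
  have c1 := b _ _ a1 x1
  have c2 := b _ _ a2 x2
  have c3 := b _ _ a3 x1
  have c4 := b _ _ a4 x2
  rw [abs_le] at c1 c2 c3 c4 y1 y2
  have s1 : (-(3 * R) : ℝ) ≤ s := by linarith
  have s2 : (s : ℝ) ≤ 3 * R := by linarith
  have t1 : (-(3 * R) : ℝ) ≤ t := by linarith
  have t2 : (t : ℝ) ≤ 3 * R := by linarith
  have s1' : -(3 * R) ≤ s := by exact_mod_cast s1
  have s2' : s ≤ 3 * R := by exact_mod_cast s2
  have t1' : -(3 * R) ≤ t := by exact_mod_cast t1
  have t2' : t ≤ 3 * R := by exact_mod_cast t2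
  exact ⟨Set.mem_univ _, ⟨s1', s2'⟩, ⟨t1', t2'⟩⟩

private theorem wallpaper_ok (i : Fin 14) : IsWallpaperGroup (SymG (taus i)) where
  translations := by
    refine ⟨mk 1 0 |> fun u => (168 : ℝ) • u, (168 : ℝ) • mk 0 1, ?_, ?_, ?_⟩
    · rw [LinearIndependent.pair_iff]
      intro s t hst
      have h1 := congrArg ca hst
      have h2 := congrArg cb hst
      have z1 : ca (0 : E) = 0 := by simp [ca]
      have z2 : cb (0 : E) = 0 := by simp [cb]
      simp only [ca_add, ca_smul, ca_mk, z1] at h1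
      simp only [cb_add, cb_smul, cb_mk, z2] at h2
      constructor <;> linarith
    · refine ⟨_, tr_mem i 1 0, fun x => ?_⟩
      apply ext'
      · simp [A11, A12, ca_add, ca_smul]
      · simp [A21, A22, cb_add, cb_smul]
    · refine ⟨_, tr_mem i 0 1, fun x => ?_⟩
      apply ext'
      · simp [A11, A12, ca_add, ca_smul]
      · simp [A21, A22, cb_add, cb_smul]
  cocompact := by
    refine ⟨(fun p : ℝ × ℝ => mk p.1 p.2) '' (Set.Icc 0 168 ×ˢ Set.Icc 0 168), ?_, ?_⟩
    · apply IsCompact.isBounded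
      apply IsCompact.image
      · exact isCompact_Icc.prod isCompact_Icc
      · unfold mk
        fun_prop
    · intro x
      refine ⟨_, tr_mem i ⌊ca x / 168⌋ ⌊cb x / 168⌋, mk (ca x - 168 * ⌊ca x / 168⌋)
        (cb x - 168 * ⌊cb x / 168⌋), ⟨(ca x - 168 * ⌊ca x / 168⌋, cb x - 168 * ⌊cb x / 168⌋),
        ⟨⟨?_, ?_⟩, ⟨?_, ?_⟩⟩, rfl⟩, ?_⟩
      · have := Int.floor_le (ca x / 168)
        change (0 : ℝ) ≤ ca x - 168 * ⌊ca x / 168⌋
        linarith
      · have := Int.lt_floor_add_one (ca x / 168)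
        change ca x - 168 * ⌊ca x / 168⌋ ≤ (168 : ℝ)
        linarith
      · have := Int.floor_le (cb x / 168)
        change (0 : ℝ) ≤ cb x - 168 * ⌊cb x / 168⌋
        linarith
      · have := Int.lt_floor_add_one (cb x / 168)
        change cb x - 168 * ⌊cb x / 168⌋ ≤ (168 : ℝ)
        linarith
      · apply ext'
        · simp [A11, A12]
        · simp [A21, A22]
  proper := proper_ok i
  discrete := by
    intro p
    have hfin := proper_ok i (Metric.closedBall p 1) Metric.isBounded_closedBall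
    have hfin2 : ((fun g : Plane ≃ᵢ Plane => dist p (g p)) ''
        ({g : Plane ≃ᵢ Plane | g ∈ SymG (taus i) ∧
          (g '' Metric.closedBall p 1 ∩ Metric.closedBall p 1).Nonempty} ∩
          {g | g p ≠ p})).Finite := (hfin.inter_of_left _).image _
    obtain ⟨δ, hδ0, hδ⟩ : ∃ δ : ℝ, 0 < δ ∧ ∀ d ∈ ((fun g : Plane ≃ᵢ Plane => dist p (g p)) ''
        ({g : Plane ≃ᵢ Plane | g ∈ SymG (taus i) ∧
          (g '' Metric.closedBall p 1 ∩ Metric.closedBall p 1).Nonempty} ∩
          {g | g p ≠ p})), δ ≤ d := by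
      rcases Set.eq_empty_or_nonempty ((fun g : Plane ≃ᵢ Plane => dist p (g p)) ''
        ({g : Plane ≃ᵢ Plane | g ∈ SymG (taus i) ∧
          (g '' Metric.closedBall p 1 ∩ Metric.closedBall p 1).Nonempty} ∩
          {g | g p ≠ p})) with he | hne
      · rw [he]
        exact ⟨1, one_pos, fun d hd => absurd hd (Set.notMem_empty d)⟩
      · obtain ⟨d, hd, hmin⟩ := Set.exists_min_image _ id hfin2 hne
        refine ⟨d, ?_, fun e he => hmin e he⟩
        obtain ⟨g, ⟨_, hg⟩, rfl⟩ := hd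
        exact dist_pos.2 (Ne.symm hg)
    refine ⟨min δ 1, lt_min hδ0 one_pos, fun g hg hne => ?_⟩
    by_cases h1 : dist p (g p) ≤ 1
    · refine (min_le_left _ _).trans (hδ _ ⟨g, ⟨⟨hg, g p, ⟨p, ?_, rfl⟩, ?_⟩, hne⟩, rfl⟩)
      · exact Metric.mem_closedBall_self zero_le_one
      · rw [Metric.mem_closedBall, dist_comm]
        exact h1
    · exact (min_le_right _ _).trans (not_le.1 h1).le

private theorem not_isom {i j : Fin 14} (hij : i ≠ j) : IsEmpty (SymG (taus i) ≃* SymG (taus j)) := by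
  constructor
  intro e
  have h1 : code (H (taus i)) = code (H (taus j)) :=
    code_congr (((HequivSym (taus i)).trans e).trans (HequivSym (taus j)).symm)
  rw [code_taus, code_taus] at h1
  revert h1 hij
  clear * -
  revert i j
  decide

/-! ### The triangle with angles 30, 30, 120 -/

private theorem triangle_eq : triangle303012 = H0 := by
  have e0 : (!₂[(0 : ℝ), 0] : Plane) = mk 0 0 := by
    apply ext' <;> simp [ca, cb]
  have e2 : (!₂[(3 / 2 : ℝ), √3 / 2] : Plane) = mk 1 1 := by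
    ext i
    fin_cases i
    · simp
      norm_num
    · simp
  have e3 : (!₂[(1 / 2 : ℝ), √3 / 2] : Plane) = mk 0 1 := by
    ext i
    fin_cases i
    · simp
    · simp
  unfold triangle303012
  rw [e0, e2, e3, H0_eq]

private theorem frontier_H0_iff (x : E) : x ∈ frontier H0 ↔
    (0 ≤ ca x ∧ ca x ≤ cb x ∧ cb x ≤ 1) ∧ (ca x = 0 ∨ ca x = cb x ∨ cb x = 1) := by
  rw [frontier, isClosed_H0.closure_eq]
  constructor
  · rintro ⟨hx, hn⟩
    rw [mem_H0] at hx
    refine ⟨hx, ?_⟩
    by_contra hc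
    push Not at hc
    obtain ⟨c1, c2, c3⟩ := hc
    exact hn (interior_H0 (lt_of_le_of_ne hx.1 (Ne.symm c1)) (lt_of_le_of_ne hx.2.1 c2)
      (lt_of_le_of_ne hx.2.2 c3))
  · rintro ⟨hx, hb⟩
    refine ⟨mem_H0.2 hx, ?_⟩
    intro hi
    obtain ⟨h1, h2, h3⟩ := of_interior_H0 hi
    rcases hb with hb | hb | hb <;> linarith

private noncomputable def ww : ZMod 3 → Plane := (![mk 0 0, mk 1 1, mk 0 1] : Fin 3 → Plane)

private theorem ww0 : ww 0 = mk 0 0 := rfl
private theorem ww1 : ww 1 = mk 1 1 := rfl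
private theorem ww2 : ww 2 = mk 0 1 := rfl

private theorem z3 (i : ZMod 3) : i = 0 ∨ i = 1 ∨ i = 2 := by
  revert i
  decide

private theorem fedge0 (x : E) : x ∈ segment ℝ (ww 0) (ww (0 + 1)) ↔
    ca x = cb x ∧ 0 ≤ ca x ∧ ca x ≤ 1 := by
  rw [show (0 : ZMod 3) + 1 = 1 by decide, ww0, ww1, seg_iff]
  constructor
  · rintro ⟨r, h0, h1, h2, h3⟩
    refine ⟨by linarith, by linarith, by linarith⟩
  · rintro ⟨h1, h2, h3⟩
    exact ⟨ca x, h2, h3, by linarith, by linarith⟩
private theorem fedge1 (x : E) : x ∈ segment ℝ (ww 1) (ww (1 + 1)) ↔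
    cb x = 1 ∧ 0 ≤ ca x ∧ ca x ≤ 1 := by
  rw [show (1 : ZMod 3) + 1 = 2 by decide, ww1, ww2, seg_iff]
  constructor
  · rintro ⟨r, h0, h1, h2, h3⟩
    refine ⟨by linarith, by linarith, by linarith⟩
  · rintro ⟨h1, h2, h3⟩
    exact ⟨1 - ca x, by linarith, by linarith, by linarith, by linarith⟩
private theorem fedge2 (x : E) : x ∈ segment ℝ (ww 2) (ww (2 + 1)) ↔
    ca x = 0 ∧ 0 ≤ cb x ∧ cb x ≤ 1 := by
  rw [show (2 : ZMod 3) + 1 = 0 by decide, ww2, ww0, seg_iff]
  constructor
  · rintro ⟨r, h0, h1, h2, h3⟩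
    refine ⟨by linarith, by linarith, by linarith⟩
  · rintro ⟨h1, h2, h3⟩
    exact ⟨1 - cb x, by linarith, by linarith, by linarith, by linarith⟩

private theorem polygon_H0 : IsPolygon H0 := by
  refine ⟨Metric.isCompact_of_isClosed_isBounded isClosed_H0 bounded_H0,
    ⟨mk (1 / 3) (1 / 2), interior_H0 (by rw [ca_mk]; norm_num) (by rw [ca_mk, cb_mk]; norm_num)
      (by rw [cb_mk]; norm_num)⟩,
    3, ww, le_refl 3, ?_, ?_, ?_⟩
  · intro i j hij
    rcases z3 i with rfl | rfl | rfl <;> rcases z3 j with rfl | rfl | rfl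
    · rfl
    · rw [ww0, ww1] at hij
      exact absurd hij (mk_ne (by norm_num))
    · rw [ww0, ww2] at hij
      exact absurd hij (mk_ne (by norm_num))
    · rw [ww0, ww1] at hij
      exact absurd hij (mk_ne (by norm_num))
    · rfl
    · rw [ww1, ww2] at hij
      exact absurd hij (mk_ne (by norm_num))
    · rw [ww0, ww2] at hij
      exact absurd hij (mk_ne (by norm_num))
    · rw [ww1, ww2] at hij
      exact absurd hij (mk_ne (by norm_num))
    · rfl
  · ext x
    rw [frontier_H0_iff, Set.mem_iUnion]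
    constructor
    · rintro ⟨⟨a0, a1, a2⟩, h | h | h⟩
      · exact ⟨2, (fedge2 x).2 ⟨h, by linarith, a2⟩⟩
      · exact ⟨0, (fedge0 x).2 ⟨h, a0, by linarith⟩⟩
      · exact ⟨1, (fedge1 x).2 ⟨h, a0, by linarith⟩⟩
    · rintro ⟨i, hi⟩
      rcases z3 i with rfl | rfl | rfl
      · obtain ⟨h1, h2, h3⟩ := (fedge0 x).1 hi
        exact ⟨⟨h2, h1.le, by linarith⟩, Or.inr (Or.inl h1)⟩
      · obtain ⟨h1, h2, h3⟩ := (fedge1 x).1 hi
        exact ⟨⟨h2, by linarith, h1.le⟩, Or.inr (Or.inr h1)⟩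
      · obtain ⟨h1, h2, h3⟩ := (fedge2 x).1 hi
        exact ⟨⟨h1.ge, by linarith, h3⟩, Or.inl h1⟩
  · intro i j x hij hi hj
    have hv : ∀ p q : ℝ, ca x = p → cb x = q → x = mk p q := by
      intro p q h1 h2
      exact ext' (by simp [h1]) (by simp [h2])
    rcases z3 i with rfl | rfl | rfl <;> rcases z3 j with rfl | rfl | rfl
    · exact absurd rfl hij
    · obtain ⟨h1, _, _⟩ := (fedge0 x).1 hi
      obtain ⟨h2, _, _⟩ := (fedge1 x).1 hj
      exact Or.inl ⟨by decide, hv 1 1 (by linarith) h2⟩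
    · obtain ⟨h1, _, _⟩ := (fedge0 x).1 hi
      obtain ⟨h2, _, _⟩ := (fedge2 x).1 hj
      exact Or.inr ⟨by decide, hv 0 0 h2 (by linarith)⟩
    · obtain ⟨h1, _, _⟩ := (fedge1 x).1 hi
      obtain ⟨h2, _, _⟩ := (fedge0 x).1 hj
      exact Or.inr ⟨by decide, hv 1 1 (by linarith) h1⟩
    · exact absurd rfl hij
    · obtain ⟨h1, _, _⟩ := (fedge1 x).1 hi
      obtain ⟨h2, _, _⟩ := (fedge2 x).1 hj
      exact Or.inl ⟨by decide, hv 0 1 h2 h1⟩
    · obtain ⟨h1, _, _⟩ := (fedge2 x).1 hi
      obtain ⟨h2, _, _⟩ := (fedge0 x).1 hj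
      exact Or.inl ⟨by decide, hv 0 0 h1 (by linarith)⟩
    · obtain ⟨h1, _, _⟩ := (fedge2 x).1 hi
      obtain ⟨h2, _, _⟩ := (fedge1 x).1 hj
      exact Or.inr ⟨by decide, hv 0 1 h1 h2⟩
    · exact absurd rfl hij

private theorem not_similar_H0 : ¬ Similar H0 triangle306090 := by
  rintro ⟨r, f, hr, hf, him⟩
  have hiso : Isometry (fun x => r⁻¹ • f x) := by
    apply Isometry.of_dist_eq
    intro x y
    rw [dist_smul₀, hf, Real.norm_eq_abs, abs_of_pos (inv_pos.2 hr)]
    field_simp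
  have hfin : Function.Injective f := by
    intro x y hxy
    have h := hf x y
    rw [hxy, dist_self] at h
    have : dist x y = 0 := by
      rcases mul_eq_zero.1 h.symm with h | h
      · exact absurd h hr.ne'
      · exact h
    exact dist_eq_zero.1 this
  set g := hiso.affineIsometryOfStrictConvexSpace with hg
  have hfg : ∀ x, f x = r • g x := by
    intro x
    have : g x = r⁻¹ • f x := rfl
    rw [this, smul_smul, mul_inv_cancel₀ hr.ne', one_smul]
  set F : Plane →ᵃ[ℝ] Plane := r • g.toAffineMap with hF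
  have hFf : (F : Plane → Plane) = f := by
    ext1 x
    rw [hfg x]
    rfl
  obtain ⟨a, ha, ea⟩ : (!₂[(0 : ℝ), 0] : Plane) ∈ f '' H0 := by
    rw [him]
    exact subset_convexHull ℝ _ (by simp)
  obtain ⟨b, hb, eb⟩ : (!₂[(1 : ℝ), 0] : Plane) ∈ f '' H0 := by
    rw [him]
    exact subset_convexHull ℝ _ (by simp)
  obtain ⟨c, hc, ec⟩ : (!₂[(0 : ℝ), √3] : Plane) ∈ f '' H0 := by
    rw [him]
    exact subset_convexHull ℝ _ (by simp)
  have h1 : f '' (convexHull ℝ {a, b, c}) = f '' H0 := by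
    rw [him, ← hFf, AffineMap.image_convexHull, hFf, Set.image_insert_eq, Set.image_insert_eq,
      Set.image_singleton, ea, eb, ec]
    rfl
  have h2 : H0 = convexHull ℝ {a, b, c} := (hfin.image_injective h1).symm
  -- the three distances are different
  have dab : r * dist a b = 1 := by
    rw [← hf, ea, eb, EuclideanSpace.dist_eq]
    simp
  have dac : r * dist a c = √3 := by
    rw [← hf, ea, ec, EuclideanSpace.dist_eq]
    simp [Real.dist_eq]
  have dbc : r * dist b c = 2 := by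
    rw [← hf, eb, ec, EuclideanSpace.dist_eq]
    simp [Real.dist_eq]
    rw [show (1 : ℝ) + 3 = 2 ^ 2 by norm_num]
    exact Real.sqrt_sq (by norm_num)
  have s3 : √3 ≠ 1 := by
    intro h
    have := s3sq
    rw [h] at this
    norm_num at this
  have s3' : √3 ≠ 2 := by
    intro h
    have := s3sq
    rw [h] at this
    norm_num at this
  have n1 : dist a b ≠ dist a c := fun h => s3 (by rw [← dac, ← dab, h])
  have n2 : dist a b ≠ dist b c := fun h => by
    rw [h, dbc] at dab
    norm_num at dab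
  have n3 : dist a c ≠ dist b c := fun h => s3' (by rw [← dac, ← dbc, h])
  -- the two sides of length one of the half
  have e1 : dist (mk 0 1) (mk 0 0) = dist (mk 0 1) (mk 1 1) := by
    rw [dist_eq_iff]
    simp only [ca_mk, cb_mk, Q]
    norm_num
  have v0 := vertices_of_hull h2 (v := mk 0 0) (Or.inl rfl)
  have v1 := vertices_of_hull h2 (v := mk 1 1) (Or.inr (Or.inl rfl))
  have v2 := vertices_of_hull h2 (v := mk 0 1) (Or.inr (Or.inr rfl))
  have q01 : mk 0 0 ≠ mk 1 1 := mk_ne (by norm_num)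
  have q02 : mk 0 0 ≠ mk 0 1 := mk_ne (by norm_num)
  have q12 : mk 1 1 ≠ mk 0 1 := mk_ne (by norm_num)
  rcases v0 with v0 | v0 | v0 <;> rcases v1 with v1 | v1 | v1 <;> rcases v2 with v2 | v2 | v2 <;>
    first
    | exact q01 (v0.trans v1.symm)
    | exact q02 (v0.trans v2.symm)
    | exact q12 (v1.trans v2.symm)
    | (rw [v0, v1, v2] at e1
       first
       | exact n1 e1
       | exact n1 e1.symm
       | exact n2 (by rw [dist_comm a b]; exact e1)
       | exact n2 (by rw [dist_comm a b]; exact e1.symm)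
       | exact n3 (by rw [dist_comm a c, dist_comm b c]; exact e1)
       | exact n3 (by rw [dist_comm a c, dist_comm b c]; exact e1.symm))

/-! ### Cutting a tiling -/

/-- cut every tile along its long diagonal -/
private def Tri (T : Set (Set Plane)) : Set (Set Plane) :=
  {B | ∃ g : Plane ≃ᵢ Plane, g '' P0 ∈ T ∧ B = g '' H0}

private theorem comp_image (g h : Plane ≃ᵢ Plane) (A : Set Plane) :
    (g * h : Plane ≃ᵢ Plane) '' A = g '' (h '' A) := by
  change ((g : E → E) ∘ h) '' A = g '' (h '' A)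
  rw [Set.image_comp]

private theorem inv_image (g : Plane ≃ᵢ Plane) (A : Set Plane) :
    (g⁻¹ : Plane ≃ᵢ Plane) '' (g '' A) = A := by
  rw [← comp_image, inv_mul_cancel]
  change (id : E → E) '' A = A
  rw [Set.image_id]

private theorem halves {g g' : Plane ≃ᵢ Plane} (h : g '' P0 = g' '' P0) :
    g' '' H0 = g '' H0 ∨ g' '' H0 = g '' H1 := by
  have h1 : (g⁻¹ * g' : Plane ≃ᵢ Plane) '' P0 = P0 := by
    rw [comp_image, ← h, inv_image]
  have h2 : ∀ A : Set Plane, g' '' A = g '' ((g⁻¹ * g' : Plane ≃ᵢ Plane) '' A) := by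
    intro A
    rw [← comp_image, mul_inv_cancel_left]
  rw [h2 H0]
  rcases half_image _ h1 with ⟨h3, _⟩ | ⟨h3, _⟩
  · left; rw [h3]
  · right; rw [h3]

private theorem other_half {T : Set (Set Plane)} {g : Plane ≃ᵢ Plane} (h : g '' P0 ∈ T) :
    g '' H1 ∈ Tri T := by
  refine ⟨g * rho, ?_, ?_⟩
  · rw [comp_image, rho_P0]
    exact h
  · rw [comp_image, rho_H0]

private theorem tri_tiling {T : Set (Set Plane)} (hT : IsMonohedralTiling P0 T) :
    IsMonohedralTiling H0 (Tri T) where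
  countable := by
    have h : Tri T ⊆ ⋃ A ∈ T, {B | ∃ g : Plane ≃ᵢ Plane, g '' P0 = A ∧ B = g '' H0} := by
      rintro B ⟨g, hg, rfl⟩
      simp only [Set.mem_iUnion]
      exact ⟨_, hg, g, rfl, rfl⟩
    refine Set.Countable.mono h (hT.countable.biUnion fun A hA => ?_)
    obtain ⟨g, rfl⟩ := hT.congruent A hA
    refine Set.Finite.countable (Set.Finite.subset
      ((Set.finite_singleton (g '' H1)).insert (g '' H0)) ?_)
    rintro B ⟨g', h', rfl⟩
    rcases halves h'.symm with h | h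
    · left; exact h
    · right; exact h
  closed := by
    rintro B ⟨g, _, rfl⟩
    exact (g.toHomeomorph.isClosed_image).2 isClosed_H0
  covers := by
    rw [Set.eq_univ_iff_forall]
    intro x
    have hx : x ∈ ⋃₀ T := by
      rw [hT.covers]
      trivial
    obtain ⟨A, hA, hxA⟩ := hx
    obtain ⟨g, rfl⟩ := hT.congruent A hA
    rw [← union_H, Set.image_union] at hxA
    rcases hxA with hx | hx
    · exact ⟨_, ⟨g, hA, rfl⟩, hx⟩
    · exact ⟨_, other_half hA, hx⟩
  disjoint := by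
    rintro A ⟨g, hg, rfl⟩ B ⟨g', hg', rfl⟩ hne
    by_cases h : g '' P0 = g' '' P0
    · rcases halves h with h1 | h1
      · exact absurd h1.symm hne
      · rw [h1]
        have i1 : interior (g '' H0) = g '' interior H0 := (g.toHomeomorph.image_interior H0).symm
        have i2 : interior (g '' H1) = g '' interior H1 := (g.toHomeomorph.image_interior H1).symm
        rw [i1, i2, Set.disjoint_left]
        rintro _ ⟨x, hx, rfl⟩ ⟨y, hy, e⟩
        have hxy : y = x := g.injective e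
        rw [hxy] at hy
        exact lt_asymm (of_interior_H0 hx).2.1 (of_interior_H1 hy)
    · have hd := hT.disjoint _ hg _ hg' h
      refine hd.mono (interior_mono ?_) (interior_mono ?_)
      · exact Set.image_mono fun _ hx => hx.1
      · exact Set.image_mono fun _ hx => hx.1
  congruent := by
    rintro B ⟨g, _, rfl⟩
    exact ⟨g, rfl⟩

private theorem tri_symm {T : Set (Set Plane)} (hT : IsMonohedralTiling P0 T)
    {G : Subgroup (Plane ≃ᵢ Plane)} (hG : IsSymmetryGroup G T) : IsSymmetryGroup G (Tri T) := by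
  intro g
  rw [hG g]
  constructor
  · rintro h B ⟨k, hk, rfl⟩
    refine ⟨g * k, ?_, ?_⟩
    · rw [comp_image]
      exact h _ hk
    · rw [comp_image]
  · intro h A hA
    obtain ⟨k, rfl⟩ := hT.congruent A hA
    obtain ⟨l, hl, e⟩ := h _ ⟨k, hA, rfl⟩
    have h1 : (l⁻¹ * g * k : Plane ≃ᵢ Plane) '' H0 = H0 := by
      rw [comp_image, comp_image, e, inv_image]
    have h2 := rhombus_of_half _ h1
    have h3 : g '' (k '' P0) = l '' ((l⁻¹ * g * k : Plane ≃ᵢ Plane) '' P0) := by
      rw [← comp_image, ← comp_image, mul_assoc, mul_inv_cancel_left]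
    rw [h3, h2]
    exact hl

/-- Two polygons, neither of which is similar to the 30-60-90 triangle, realize the same fourteen
pairwise non-isomorphic wallpaper groups: the rhombus with angles 60 and 120 degrees, and the
triangle with angles 30, 30 and 120 degrees. -/
theorem result :
    (IsPolygon rhombus ∧ ¬ Similar rhombus triangle306090) ∧
    (IsPolygon triangle303012 ∧ ¬ Similar triangle303012 triangle306090) ∧
    ∃ W : Fin 14 → Subgroup (Plane ≃ᵢ Plane),
      (∀ i, IsWallpaperGroup (W i)) ∧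
      (∀ i j, i ≠ j → IsEmpty (W i ≃* W j)) ∧
      (∀ i, Realizes rhombus (W i)) ∧ ∀ i, Realizes triangle303012 (W i) := by
  rw [rhombus_eq, triangle_eq]
  exact ⟨⟨polygon_P0, not_similar⟩, ⟨polygon_H0, not_similar_H0⟩, fun i => SymG (taus i),
    wallpaper_ok, fun i j h => not_isom h,
    fun i => ⟨Tiling (taus i), SymG (taus i), tiling_ok i, symm_ok i, ⟨MulEquiv.refl _⟩⟩,
    fun i => ⟨Tri (Tiling (taus i)), SymG (taus i), tri_tiling (tiling_ok i),
      tri_symm (tiling_ok i) (symm_ok i), ⟨MulEquiv.refl _⟩⟩⟩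

end Pool.Agent.Results.MP_fa5b42_co.RhombusTriangleRealizeFourteen
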